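import Pool.Agent.N912.EL.Stm2
import Pool.Agent.W357.EG.LgK

set_option autoImplicit false

/-!
Project EL (helper912), LGK: the coefficients of the logarithmic derivative of the Dirichlet
series of an arbitrary completely multiplicative function (of absolute value at most `1`, equal to
`1` at the units) of the elements of an imaginary quadratic order which is a principal ideal ring.
Port of `Pool/Agent/W357/EG/LgK.lean`.
-/

namespace Pool.Agent.N400.EL

open Finset
open Pool.Agent.W78.GA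
open Pool.Agent.W78.EG
open Pool.Agent.W357.EG
open Pool.Agent.N912.EL (MG S_LGK)
open Pool.Agent.H304R3.HK (Lg)
open ArithmeticFunction (vonMangoldt)

variable {t c : ℤ}

/-- sum over the multiples of `d` of norm `n` -/
lemma sum_mul' (hD : t ^ 2 < 4 * c) {φ : Qd t c → ℂ} (H : MG φ) {n m : ℕ} (hn : n ≠ 0)
    (hm : m ∣ n) {d : Qd t c} (hd : nm d = m) :
    ∑ z ∈ Nn t c n, (open scoped Classical in if d ∣ z then φ z else 0) =
      φ d * ∑ w ∈ Nn t c (n / m), φ w := by
  classical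
  have := isDomain hD
  have hm0 : 0 < m := Nat.pos_of_dvd_of_pos hm (Nat.pos_of_ne_zero hn)
  have hd0 : d ≠ 0 := by
    rintro rfl
    rw [nm_zero] at hd
    omega
  have hnm0 : 1 ≤ n / m := Nat.div_pos (Nat.le_of_dvd (Nat.pos_of_ne_zero hn) hm) hm0
  rw [← Finset.sum_filter, Finset.mul_sum]
  refine (Finset.sum_bij (fun w _ => d * w) ?_ ?_ ?_ ?_).symm
  · intro w hw
    rw [mem_filter, mem_Nn hD, nm_mul, hd, ((mem_Nn hD).1 hw).2]
    exact ⟨⟨Nat.pos_of_ne_zero hn, Nat.mul_div_cancel' hm⟩, dvd_mul_right _ _⟩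
  · intro a _ b _ h
    exact mul_left_cancel₀ hd0 h
  · intro z hz
    rw [mem_filter, mem_Nn hD] at hz
    obtain ⟨⟨-, h1⟩, w, rfl⟩ := hz
    refine ⟨w, ?_, rfl⟩
    rw [mem_Nn hD]
    refine ⟨hnm0, ?_⟩
    rw [nm_mul, hd] at h1
    rw [← h1, Nat.mul_div_cancel_left _ hm0]
  · intro w hw
    rw [H.mul d w hd0]
    rintro rfl
    have h1 := ((mem_Nn hD).1 hw).2
    rw [nm_zero] at h1
    omega

/-- the identity of the logarithmic derivative -/
lemma log_id' (hD : t ^ 2 < 4 * c) (hP : S_PID t c) {φ : Qd t c → ℂ} (H : MG φ)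
    {n : ℕ} (hn : n ≠ 0) :
    aL φ n * (Real.log n : ℂ) = ∑ m ∈ n.divisors, Bk φ m * aL φ (n / m) := by
  classical
  have huc : (uc t c : ℂ) ≠ 0 := by exact_mod_cast (uc_pos hD).ne'
  have h1 : ∀ z ∈ Nn t c n, φ z * ((uc t c : ℂ) * (Real.log n : ℂ)) =
      ∑ d ∈ ball t c n, (LK d : ℂ) * (if d ∣ z then φ z else 0) := by
    intro z hz
    obtain ⟨h2, h3⟩ := (mem_Nn hD).1 hz
    have hz0 : z ≠ 0 := by
      rintro rfl
      rw [nm_zero] at h3
      omega
    have h4 := sum_LK hD hP (n : ℝ) z hz0 (by rw [h3])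
    rw [h3] at h4
    have h5 : ((uc t c : ℂ) * (Real.log n : ℂ)) =
        ∑ d ∈ ball t c n, ((if d ∣ z then LK d else 0 : ℝ) : ℂ) := by
      rw [← Complex.ofReal_sum, h4]
      push_cast
      rfl
    rw [h5, Finset.mul_sum]
    refine Finset.sum_congr rfl fun d _ => ?_
    split_ifs
    · ring
    · simp
  have h2 : (∑ z ∈ Nn t c n, φ z) * ((uc t c : ℂ) * (Real.log n : ℂ)) =
      ∑ d ∈ ball t c n, (LK d : ℂ) * ∑ z ∈ Nn t c n, (if d ∣ z then φ z else 0) := by
    rw [Finset.sum_mul, Finset.sum_congr rfl h1, Finset.sum_comm]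
    exact Finset.sum_congr rfl fun d _ => by rw [Finset.mul_sum]
  have h3 : ∑ d ∈ ball t c n, (LK d : ℂ) * ∑ z ∈ Nn t c n, (if d ∣ z then φ z else 0) =
      ∑ m ∈ n.divisors, ∑ d ∈ Nn t c m, (LK d : ℂ) * (φ d * ∑ w ∈ Nn t c (n / m), φ w) := by
    have h4 : ∀ d ∈ ball t c n, d ∉ n.divisors.biUnion (fun m => Nn t c m) →
        (LK d : ℂ) * ∑ z ∈ Nn t c n, (if d ∣ z then φ z else 0) = 0 := by
      intro d hd hd2
      rw [Finset.sum_eq_zero, mul_zero]
      intro z hz
      rw [if_neg]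
      intro hdz
      apply hd2
      obtain ⟨h5, h6⟩ := (mem_Nn hD).1 hz
      rw [mem_biUnion]
      refine ⟨nm d, ?_, (mem_Nn hD).2 ⟨((mem_ball hD).1 hd).1, rfl⟩⟩
      rw [Nat.mem_divisors]
      exact ⟨h6 ▸ nm_dvd hdz, hn⟩
    have hsub : n.divisors.biUnion (fun m => Nn t c m) ⊆ ball t c n := by
      intro d hd
      rw [mem_biUnion] at hd
      obtain ⟨m, hm, hd⟩ := hd
      obtain ⟨h5, h6⟩ := (mem_Nn hD).1 hd
      rw [mem_ball hD, h6]
      exact ⟨h5, Nat.cast_le.2 (Nat.divisor_le hm)⟩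
    rw [← Finset.sum_subset hsub h4, Finset.sum_biUnion]
    · refine Finset.sum_congr rfl fun m hm => Finset.sum_congr rfl fun d hd => ?_
      rw [sum_mul' hD H hn (Nat.dvd_of_mem_divisors hm) ((mem_Nn hD).1 hd).2]
    · intro m _ m' _ hmm
      rw [Function.onFun, Finset.disjoint_left]
      intro d hd hd'
      exact hmm (((mem_Nn hD).1 hd).2.symm.trans ((mem_Nn hD).1 hd').2)
  rw [h3] at h2
  have h4 : ∀ m ∈ n.divisors, ∑ d ∈ Nn t c m, (LK d : ℂ) * (φ d * ∑ w ∈ Nn t c (n / m), φ w) =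
      (uc t c : ℂ) * (uc t c : ℂ) * (Bk φ m * aL φ (n / m)) := by
    intro m _
    have h6 : ∑ d ∈ Nn t c m, (LK d : ℂ) * (φ d * ∑ w ∈ Nn t c (n / m), φ w) =
        (∑ d ∈ Nn t c m, (LK d : ℂ) * φ d) * ∑ w ∈ Nn t c (n / m), φ w := by
      rw [Finset.sum_mul]
      exact Finset.sum_congr rfl fun d _ => by ring
    rw [h6, aL_eq, Bk]
    field_simp
  rw [Finset.sum_congr rfl h4, ← Finset.mul_sum] at h2
  rw [aL_eq]
  have h5 : (uc t c : ℂ) * (uc t c : ℂ) ≠ 0 := mul_ne_zero huc huc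
  apply mul_left_cancel₀ h5
  rw [← h2]
  field_simp

lemma Bk_le' (hD : t ^ 2 < 4 * c) (hP : S_PID t c) {φ : Qd t c → ℂ}
    (H : MG φ) (m : ℕ) : ‖Bk φ m‖ ≤ 2 * vonMangoldt m := by
  have huc : (0 : ℝ) < uc t c := by exact_mod_cast uc_pos hD
  rw [Bk, norm_div, Complex.norm_natCast, div_le_iff₀ huc]
  calc ‖∑ d ∈ Nn t c m, (LK d : ℂ) * φ d‖ ≤ ∑ d ∈ Nn t c m, ‖(LK d : ℂ) * φ d‖ :=
        norm_sum_le _ _
    _ ≤ ∑ d ∈ Nn t c m, LK d := by
        refine Finset.sum_le_sum fun d _ => ?_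
        rw [norm_mul, Complex.norm_real, Real.norm_of_nonneg (LK_nonneg d)]
        exact mul_le_of_le_one_right (LK_nonneg d) (H.le d)
    _ ≤ _ := (sum_LK_le hD hP m).trans (le_of_eq (by ring))

lemma Bk_eq' (hD : t ^ 2 < 4 * c) (hP : S_PID t c) {φ : Qd t c → ℂ}
    (H : MG φ) (m : ℕ) : (vonMangoldt m : ℂ) * gK φ m = Bk φ m := by
  unfold gK
  by_cases h : vonMangoldt m = 0
  · have h1 := Bk_le' hD hP H m
    rw [h, mul_zero, norm_le_zero_iff] at h1
    rw [h1, h]
    simp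
  · rw [mul_div_cancel₀]
    exact_mod_cast h

lemma gK_le' (hD : t ^ 2 < 4 * c) (hP : S_PID t c) {φ : Qd t c → ℂ}
    (H : MG φ) (m : ℕ) : ‖gK φ m‖ ≤ 2 := by
  unfold gK
  have h0 : 0 ≤ vonMangoldt m := ArithmeticFunction.vonMangoldt_nonneg
  rw [norm_div, Complex.norm_real, Real.norm_of_nonneg h0]
  rcases h0.eq_or_lt with h | h
  · rw [← h, div_zero]; norm_num
  · rw [div_le_iff₀ h]
    exact Bk_le' hD hP H m

theorem aL_one' (hD : t ^ 2 < 4 * c) {φ : Qd t c → ℂ} (H : MG φ) : aL φ 1 = 1 := by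
  have huc : (uc t c : ℂ) ≠ 0 := by exact_mod_cast (uc_pos hD).ne'
  have h1 : Nn t c 1 = ball t c 1 := by
    ext z
    rw [mem_Nn hD, mem_ball1 hD]
    simp
  rw [aL_eq, h1, Finset.sum_congr rfl (fun z hz => H.unit z ((mem_ball1 hD).1 hz)),
    Finset.sum_const, nsmul_eq_mul, mul_one]
  exact div_self huc

theorem lgK' (hD : t ^ 2 < 4 * c) (hP : S_PID t c) {φ : Qd t c → ℂ}
    (H : MG φ) : Lg (aL φ) (gK φ) := by
  have hlg : ∀ n : ℕ, n ≠ 0 → aL φ n * (Real.log n : ℂ) =
      ∑ d ∈ n.divisors, (vonMangoldt d : ℂ) * gK φ d * aL φ (n / d) := by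
    intro n hn
    rw [log_id' hD hP H hn]
    exact Finset.sum_congr rfl fun d _ => by rw [Bk_eq' hD hP H]
  refine ⟨aL_zero hD φ, aL_one' hD H, ?_, gK_le' hD hP H, hlg⟩
  intro n
  induction n using Nat.strong_induction_on with
  | _ n ih =>
    rcases Nat.lt_or_ge n 2 with h2 | h2
    · interval_cases n
      · rw [aL_zero hD]; simp
      · rw [aL_one' hD H]; simp
    · have hn : n ≠ 0 := by omega
      have hlog : 0 < Real.log n := Real.log_pos (by exact_mod_cast h2)
      have h1 := hlg n hn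
      have h3 : ‖aL φ n‖ * Real.log n ≤ (n.divisors.card : ℝ) * Real.log n := by
        rw [tau_log hn]
        calc ‖aL φ n‖ * Real.log n = ‖aL φ n * (Real.log n : ℂ)‖ := by
              rw [norm_mul, Complex.norm_real, Real.norm_of_nonneg hlog.le]
          _ ≤ ∑ d ∈ n.divisors, ‖(vonMangoldt d : ℂ) * gK φ d * aL φ (n / d)‖ := by
              rw [h1]; exact norm_sum_le _ _
          _ ≤ _ := by
              refine Finset.sum_le_sum fun d hd => ?_
              have h0 : 0 ≤ vonMangoldt d := ArithmeticFunction.vonMangoldt_nonneg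
              rw [norm_mul, norm_mul, Complex.norm_real, Real.norm_of_nonneg h0]
              rcases h0.eq_or_lt with h4 | h4
              · rw [← h4]; simp
              · have hd1 : 1 < d := by
                  by_contra h5
                  interval_cases d
                  · simp at h4
                  · simp at h4
                have h6 : ‖aL φ (n / d)‖ ≤ ((n / d).divisors.card : ℝ) :=
                  ih (n / d) (Nat.div_lt_self (by omega) hd1)
                have h7 := gK_le' hD hP H d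
                calc vonMangoldt d * ‖gK φ d‖ * ‖aL φ (n / d)‖
                    ≤ vonMangoldt d * 2 * ((n / d).divisors.card : ℝ) := by
                      gcongr
                  _ = _ := by ring
      exact le_of_mul_le_mul_right h3 hlog

/-- LGK -/
theorem lgk {t c : ℤ} (hD : t ^ 2 < 4 * c) (hP : S_PID t c) : S_LGK t c :=
  fun G H => ⟨gK G, lgK' hD hP H⟩

end Pool.Agent.N400.EL
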